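import Mathlib

set_option autoImplicit false

namespace Pool.Agent.Results.MP_623bad_gt.Counter

open Set Metric EuclideanGeometry RealInnerProductSpace

abbrev P : Type := EuclideanSpace ℝ (Fin 2)

noncomputable def T (x : P) : P := ((1 + ‖x‖ ^ 2) / 2) • x

noncomputable def B (x y w : P) : P := ((1 + ‖x‖ ^ 2) / 2) • w + (⟪w, x + y⟫ / 2) • y

lemma TB {x y w : P} {t : ℝ} (ht : t ≠ 0) (h : x - y = t • w) (k : dist (T x) (T y) = dist x y) :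
    ‖B x y w‖ = ‖w‖ := by
  have h1 : T x - T y = t • B x y w := by
    have h2 : t * ⟪w, x + y⟫ = ‖x‖ ^ 2 - ‖y‖ ^ 2 := by
      rw [← real_inner_smul_left, ← h, inner_sub_left, inner_add_right, inner_add_right,
        real_inner_self_eq_norm_sq, real_inner_self_eq_norm_sq, real_inner_comm]
      ring
    rw [B, smul_add, smul_comm t, ← h, smul_smul, ← mul_div_assoc, h2, T, T]
    module
  rw [dist_eq_norm, dist_eq_norm, h1, h, norm_smul, norm_smul] at k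
  exact mul_left_cancel₀ (norm_ne_zero_iff.2 ht) k

lemma norm_T (x : P) : ‖T x‖ = (1 + ‖x‖ ^ 2) / 2 * ‖x‖ := by
  rw [T, norm_smul, Real.norm_of_nonneg (by positivity)]

lemma homeo : ∃ H : closedBall (0 : P) 1 ≃ₜ closedBall (0 : P) 1, ∀ x, (H x).1 = T x := by
  have h1 (x : closedBall (0 : P) 1) : T x ∈ closedBall (0 : P) 1 := by
    have := mem_closedBall_zero_iff.1 x.2
    rw [mem_closedBall_zero_iff, norm_T]
    nlinarith [norm_nonneg x.1, mul_le_one₀ this (norm_nonneg _) this]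
  have := isCompact_iff_compactSpace.1 (isCompact_closedBall (0 : P) 1)
  refine ⟨Continuous.homeoOfEquivCompactToT2 (f := .ofBijective (fun x => ⟨_, h1 x⟩)
    ⟨fun x y h => ?_, fun y => ?_⟩) (Continuous.subtype_mk (by unfold T; fun_prop) _), fun _ => rfl⟩
  · have h2 : T x = T y := congrArg Subtype.val h
    have h3 : ‖x.1‖ = ‖y.1‖ := by
      have := congrArg norm h2
      rw [norm_T, norm_T] at this
      have k : (‖x.1‖ - ‖y.1‖) * (1 + ‖x.1‖ ^ 2 + ‖x.1‖ * ‖y.1‖ + ‖y.1‖ ^ 2) = 0 := by linarith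
      exact sub_eq_zero.1 ((mul_eq_zero.1 k).resolve_right (by positivity))
    rw [T, T, h3] at h2
    exact Subtype.ext (smul_right_injective _ (by positivity) h2)
  · have h2 := mem_closedBall_zero_iff.1 y.2
    obtain ⟨s, h3, h4⟩ := intermediate_value_Icc (f := fun s : ℝ => (1 + (s * ‖y.1‖) ^ 2) / 2 * s)
      (a := 0) (b := 2) zero_le_two (by fun_prop) (show (1 : ℝ) ∈ _ from
        ⟨by simp, by nlinarith [sq_nonneg (2 * ‖y.1‖)]⟩)
    have h5 : ‖s • y.1‖ = s * ‖y.1‖ := by rw [norm_smul, Real.norm_of_nonneg h3.1]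
    refine ⟨⟨s • y.1, mem_closedBall_zero_iff.2 (h5 ▸ le_of_not_gt fun k => ?_)⟩, Subtype.ext ?_⟩
    · have k1 : 1 < s := by nlinarith [h3.1]
      dsimp only at h4
      nlinarith
    · exact (show T (s • y.1) = _ by rw [T, h5, smul_smul, (show _ * s = 1 from h4), one_smul])

lemma key {z u v : P} (hz : ‖z‖ ≤ 1) (h : ⟪u, v⟫ ^ 2 < ‖u‖ ^ 2 * ‖v‖ ^ 2) (h1 : ‖B z z u‖ = ‖u‖)
    (h2 : ‖B z z v‖ = ‖v‖) (h3 : ‖B z z (u - v)‖ = ‖u - v‖) : False := by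
  have k (w : P) (h : ‖B z z w‖ = ‖w‖) : (((1 + ‖z‖ ^ 2) / 2) ^ 2 - 1) * ‖w‖ ^ 2 +
      (1 + 2 * ‖z‖ ^ 2) * ⟪w, z⟫ ^ 2 = 0 := by
    have := congrArg (· ^ 2) h
    simp only [B, norm_add_sq_real, norm_smul, mul_pow, Real.norm_eq_abs, sq_abs, inner_smul_left,
      inner_smul_right, inner_add_right, conj_trivial] at this
    linarith
  have k1 := k u h1
  have k2 := k v h2
  have k3 := k _ h3
  rw [norm_sub_sq_real, inner_sub_left] at k3
  generalize hA : ((1 + ‖z‖ ^ 2) / 2) ^ 2 - 1 = A at k1 k2 k3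
  generalize hC : 1 + 2 * ‖z‖ ^ 2 = C at k1 k2 k3
  have k4 : A * ⟪u, v⟫ + C * (⟪u, z⟫ * ⟪v, z⟫) = 0 := by linarith
  have k5 : A = 0 := by
    have : A ^ 2 * (‖u‖ ^ 2 * ‖v‖ ^ 2 - ⟪u, v⟫ ^ 2) = 0 := by
      linear_combination A * ‖v‖ ^ 2 * k1 - C * ⟪u, z⟫ ^ 2 * k2 -
        (A * ⟪u, v⟫ - C * (⟪u, z⟫ * ⟪v, z⟫)) * k4
    simpa [(sub_pos.2 h).ne'] using this
  have k6 : ‖z‖ ^ 2 = 1 := by nlinarith [sq_nonneg ‖z‖]
  have k7 : C = 3 := by linarith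
  subst k5 k7
  have k8 : ⟪u, z⟫ = 0 := by simpa using k1
  have k9 : ⟪v, z⟫ = 0 := by simpa using k2
  simp only [EuclideanSpace.real_norm_sq_eq, Fin.sum_univ_two, PiLp.inner_apply, RCLike.inner_apply,
    conj_trivial] at h k6 k8 k9
  refine h.ne ?_
  clear k h1 h2 h3 k1 k2 k3 k4 hA hC h hz
  grind

abbrev D : Type := closedBall (0 : P) 1

def Ang (α β γ : ℝ) (p q r : D) : Prop :=
  ∠ q.1 p.1 r.1 = α ∧ ∠ p.1 q.1 r.1 = β ∧ ∠ p.1 r.1 q.1 = γ ∧ p ≠ q ∧ p ≠ r ∧ q ≠ r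

def Small (ε : ℝ) (p q r : D) : Prop := dist p q < ε ∧ dist p r < ε ∧ dist q r < ε

def Congr (T : D → D) (p q r : D) : Prop :=
  dist (T p) (T q) = dist p q ∧ dist (T p) (T r) = dist p r ∧ dist (T q) (T r) = dist q r

theorem result : ∃ T : D ≃ₜ D, ∀ α β γ : ℝ, 0 < α → 0 < β → 0 < γ → α + β + γ = Real.pi →
    ∃ ε > 0, ∀ p q r : D, Ang α β γ p q r → Small ε p q r → ¬ Congr T p q r := by
  obtain ⟨H, hH⟩ := homeo
  refine ⟨H, fun α β γ a1 b1 c1 e => ?_⟩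
  have cl (θ : ℝ) (h1 : 0 < θ) (h2 : θ < Real.pi) : Real.cos θ ^ 2 < 1 := by
    nlinarith [Real.sin_pos_of_pos_of_lt_pi h1 h2, Real.sin_sq_add_cos_sq θ]
  let K : Set (P × P × P × ℝ) := closedBall 0 1 ×ˢ closedBall 0 1 ×ˢ closedBall 0 1 ×ˢ Icc 0 2 ∩
    {s | ‖s.2.1‖ + ‖s.2.2.1‖ = 1 ∧ ⟪s.2.1, s.2.2.1⟫ = ‖s.2.1‖ * ‖s.2.2.1‖ * Real.cos α ∧
      ⟪-s.2.1, s.2.2.1 - s.2.1⟫ = ‖-s.2.1‖ * ‖s.2.2.1 - s.2.1‖ * Real.cos β ∧
      ⟪-s.2.2.1, s.2.1 - s.2.2.1⟫ = ‖-s.2.2.1‖ * ‖s.2.1 - s.2.2.1‖ * Real.cos γ ∧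
      ‖B (s.1 + s.2.2.2 • s.2.1) s.1 s.2.1‖ = ‖s.2.1‖ ∧
      ‖B (s.1 + s.2.2.2 • s.2.2.1) s.1 s.2.2.1‖ = ‖s.2.2.1‖ ∧
      ‖B (s.1 + s.2.2.2 • s.2.1) (s.1 + s.2.2.2 • s.2.2.1) (s.2.1 - s.2.2.1)‖ = ‖s.2.1 - s.2.2.1‖}
  have hK : IsCompact K := by
    refine ((isCompact_closedBall _ _).prod ((isCompact_closedBall _ _).prod
      ((isCompact_closedBall _ _).prod isCompact_Icc))).inter_right ?_
    simp only [ofPred_and, B]
    refine .inter ?_ (.inter ?_ (.inter ?_ (.inter ?_ (.inter ?_ (.inter ?_ ?_))))) <;>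
      exact isClosed_eq (by fun_prop) (by fun_prop)
  obtain ⟨ε, e1, e2⟩ := hK.exists_forall_le' (f := fun s => s.2.2.2) (a := 0) (by fun_prop) (by
    rintro ⟨z, u, v, t⟩ ⟨⟨h1, -, -, h2, -⟩, h3, h4, h5, h6, h7, h8, h9⟩
    refine h2.lt_of_ne fun h => ?_
    dsimp only at h h3 h4 h5 h6 h7 h8 h9
    subst h
    simp only [zero_smul, add_zero] at h7 h8 h9
    have hu : u ≠ 0 := by
      rintro rfl
      have := cl γ c1 (by linarith)
      simp only [norm_zero, zero_add, zero_sub, real_inner_self_eq_norm_sq, norm_neg] at h3 h6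
      rw [h3] at h6
      nlinarith
    have hv : v ≠ 0 := by
      rintro rfl
      have := cl β b1 (by linarith)
      simp only [norm_zero, add_zero, zero_sub, real_inner_self_eq_norm_sq, norm_neg] at h3 h5
      rw [h3] at h5
      nlinarith
    refine key (mem_closedBall_zero_iff.1 h1) ?_ h7 h8 h9
    rw [h4, mul_pow, mul_pow]
    exact mul_lt_of_lt_one_right (by positivity) (cl α a1 (by linarith)))
  refine ⟨min (ε / 2) 1, by positivity, 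
    fun p q r ⟨k1, k2, k3, n1, n2, n3⟩ ⟨d1, d2, _⟩ ⟨c1, c2, c3⟩ => ?_⟩
  simp only [Subtype.dist_eq, hH] at d1 d2 c1 c2 c3
  rw [dist_comm] at d1 d2 c1 c2
  rw [dist_comm p.1] at c1 c2
  rw [dist_eq_norm, lt_min_iff] at d1 d2
  obtain ⟨t, ht⟩ : ∃ t, t = ‖q.1 - p.1‖ + ‖r.1 - p.1‖ := ⟨_, rfl⟩
  have t0 : 0 < t := ht ▸ add_pos_of_pos_of_nonneg
    (norm_pos_iff.2 (sub_ne_zero.2 fun h => n1 (Subtype.ext h.symm))) (norm_nonneg _)
  obtain ⟨u, hu⟩ : ∃ u, q.1 = p.1 + t • u := ⟨t⁻¹ • (q.1 - p.1), by simp [smul_smul, t0.ne']⟩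
  obtain ⟨v, hv⟩ : ∃ v, r.1 = p.1 + t • v := ⟨t⁻¹ • (r.1 - p.1), by simp [smul_smul, t0.ne']⟩
  have h1 : ‖u‖ + ‖v‖ = 1 := by
    rw [hu, hv, add_sub_cancel_left, add_sub_cancel_left, norm_smul, norm_smul,
      Real.norm_of_nonneg t0.le] at ht
    exact mul_left_cancel₀ t0.ne' (by linarith)
  have h2 (x y : P) {θ} (h : InnerProductGeometry.angle (t • x) (t • y) = θ) :
      ⟪x, y⟫ = ‖x‖ * ‖y‖ * Real.cos θ := by
    rw [InnerProductGeometry.angle_smul_left_of_pos _ _ t0,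
      InnerProductGeometry.angle_smul_right_of_pos _ _ t0] at h
    rw [← h, mul_comm, InnerProductGeometry.cos_angle_mul_norm_mul_norm]
  simp only [EuclideanGeometry.angle, vsub_eq_sub, hu, hv] at k1 k2 k3 c1 c2 c3
  have := e2 (p.1, u, v, t) ⟨⟨p.2, mem_closedBall_zero_iff.2 (by linarith [norm_nonneg v]),
    mem_closedBall_zero_iff.2 (by linarith [norm_nonneg u]), t0.le, by linarith⟩, h1,
    h2 _ _ (by convert k1 using 2 <;> module), h2 _ _ (by convert k2 using 2 <;> module),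
    h2 _ _ (by convert k3 using 2 <;> module), TB t0.ne' (by module) c1, TB t0.ne' (by module) c2,
    TB t0.ne' (by module) c3⟩
  linarith

end Pool.Agent.Results.MP_623bad_gt.Counter
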